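import Pool.Agent.H624R3.CP.Stmts

set_option autoImplicit false

/-! Project COVPROD, task `TaskIVAL`. -/

open MeasureTheory Metric Real

namespace Pool.Agent.H823R3.CP

open Pool.Agent.H624R3.CP

/-- the one dimensional integral -/
noncomputable def KK (i : ℕ) (ρ : ℝ) (m : ℕ) : ℝ :=
  ∫ y in (0 : ℝ)..ρ, y ^ (i - 1) * (1 - y ^ 2 / ρ ^ 2) ^ m

theorem II_eq (i m : ℕ) (ρ : ℝ) (hi : 1 ≤ i) (hρ : 0 < ρ) :
    II i ρ m = i * vb i * KK i ρ m := by
  have hnt : Nontrivial (E i) := by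
    have : 0 < Module.finrank ℝ (E i) := by simp; omega
    exact Module.nontrivial_of_finrank_pos this
  set f : ℝ → ℝ := (Set.Iic ρ).indicator (fun y => (1 - y ^ 2 / ρ ^ 2) ^ m) with hf
  have h1 := integral_fun_norm_addHaar (volume : Measure (E i)) f
  have h2 : II i ρ m = ∫ x : E i, f ‖x‖ := by
    unfold II
    rw [← integral_indicator isClosed_closedBall.measurableSet]
    congr 1
    funext x
    rw [hf]
    by_cases hx : ‖x‖ ≤ ρ
    · rw [Set.indicator_of_mem (by simpa using hx), Set.indicator_of_mem (by simpa using hx)]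
    · rw [Set.indicator_of_notMem (by simpa using hx), Set.indicator_of_notMem (by simpa using hx)]
  have h3 : ∫ y in Set.Ioi (0 : ℝ), y ^ (i - 1) • f y = KK i ρ m := by
    unfold KK
    rw [intervalIntegral.integral_of_le hρ.le, ← integral_indicator measurableSet_Ioi,
      ← integral_indicator measurableSet_Ioc]
    congr 1
    funext y
    by_cases hy : 0 < y
    · rw [Set.indicator_of_mem (show y ∈ Set.Ioi (0 : ℝ) from hy), hf]
      by_cases hyρ : y ≤ ρ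
      · rw [Set.indicator_of_mem (show y ∈ Set.Iic ρ from hyρ),
          Set.indicator_of_mem (show y ∈ Set.Ioc 0 ρ from ⟨hy, hyρ⟩), smul_eq_mul]
      · rw [Set.indicator_of_notMem (show y ∉ Set.Iic ρ from hyρ),
          Set.indicator_of_notMem (fun h : y ∈ Set.Ioc 0 ρ => hyρ h.2), smul_zero]
    · rw [Set.indicator_of_notMem (show y ∉ Set.Ioi (0 : ℝ) from hy),
        Set.indicator_of_notMem (fun h : y ∈ Set.Ioc 0 ρ => hy h.1)]
  have h4 : (volume : Measure (E i)).real (ball 0 1) = vb i := by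
    unfold vb Measure.real
    rw [Measure.addHaar_closedBall_eq_addHaar_ball]
  have h5 : Module.finrank ℝ (E i) = i := by simp
  rw [h2, h1, h5, h3, h4, nsmul_eq_mul, smul_eq_mul]
  ring

theorem KK_zero (i : ℕ) (ρ : ℝ) (hi : 1 ≤ i) : KK i ρ 0 = ρ ^ i / i := by
  unfold KK
  simp only [pow_zero, mul_one]
  rw [integral_pow]
  obtain ⟨j, rfl⟩ : ∃ j, i = j + 1 := ⟨i - 1, by omega⟩
  simp

theorem KK_succ (i m : ℕ) (ρ : ℝ) (hi : 1 ≤ i) (hρ : 0 < ρ) :
    ((i : ℝ) + 2 * (m + 1)) * KK i ρ (m + 1) = 2 * (m + 1) * KK i ρ m := by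
  obtain ⟨j, rfl⟩ : ∃ j, i = j + 1 := ⟨i - 1, by omega⟩
  have hder : ∀ y : ℝ, HasDerivAt (fun y : ℝ => y ^ (j + 1) * (1 - y ^ 2 / ρ ^ 2) ^ (m + 1))
      (((j + 1 : ℕ) : ℝ) * (y ^ j * (1 - y ^ 2 / ρ ^ 2) ^ (m + 1)) +
        (2 * (m + 1) * (y ^ j * (1 - y ^ 2 / ρ ^ 2) ^ (m + 1)) -
          2 * (m + 1) * (y ^ j * (1 - y ^ 2 / ρ ^ 2) ^ m))) y := by
    intro y
    have h1 : HasDerivAt (fun y : ℝ => 1 - y ^ 2 / ρ ^ 2) (-(2 * y / ρ ^ 2)) y := by
      have := ((hasDerivAt_pow 2 y).div_const (ρ ^ 2)).const_sub 1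
      exact this.congr_deriv (by norm_num)
    have h2 := (hasDerivAt_pow (j + 1) y).mul (h1.pow (m + 1))
    refine HasDerivAt.congr_deriv (f' := ((j + 1 : ℕ) : ℝ) * y ^ (j + 1 - 1) *
      (1 - y ^ 2 / ρ ^ 2) ^ (m + 1) +
      y ^ (j + 1) * (((m + 1 : ℕ) : ℝ) * (1 - y ^ 2 / ρ ^ 2) ^ (m + 1 - 1) * -(2 * y / ρ ^ 2))) h2 ?_
    have hρ' : ρ ^ 2 ≠ 0 := by positivity
    rw [Nat.add_sub_cancel, Nat.add_sub_cancel]
    push_cast
    have h3 : y ^ 2 / ρ ^ 2 = 1 - (1 - y ^ 2 / ρ ^ 2) := by ring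
    have h4 : y ^ (j + 1) * ((m + 1) * (1 - y ^ 2 / ρ ^ 2) ^ m * -(2 * y / ρ ^ 2)) =
        -(2 * (m + 1) * (y ^ j * (1 - y ^ 2 / ρ ^ 2) ^ m) * (y ^ 2 / ρ ^ 2)) := by
      rw [pow_succ y j]
      field_simp
    rw [h4]
    have h5 : (1 - y ^ 2 / ρ ^ 2) ^ (m + 1) = (1 - y ^ 2 / ρ ^ 2) ^ m * (1 - y ^ 2 / ρ ^ 2) :=
      pow_succ _ _
    rw [h5]
    ring
  have hcont : Continuous fun y : ℝ => (((j + 1 : ℕ) : ℝ) * (y ^ j * (1 - y ^ 2 / ρ ^ 2) ^ (m + 1)) +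
        (2 * (m + 1) * (y ^ j * (1 - y ^ 2 / ρ ^ 2) ^ (m + 1)) -
          2 * (m + 1) * (y ^ j * (1 - y ^ 2 / ρ ^ 2) ^ m))) := by fun_prop
  have hint := intervalIntegral.integral_eq_sub_of_hasDerivAt (a := 0) (b := ρ)
    (fun y _ => hder y) (hcont.intervalIntegrable _ _)
  have hc : ∀ n : ℕ, IntervalIntegrable (fun y : ℝ => y ^ j * (1 - y ^ 2 / ρ ^ 2) ^ n) volume 0 ρ :=
    fun n => (by fun_prop : Continuous fun y : ℝ => y ^ j * (1 - y ^ 2 / ρ ^ 2) ^ n).intervalIntegrable _ _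
  rw [intervalIntegral.integral_add ((hc _).const_mul _)
    (((hc _).const_mul _).sub ((hc _).const_mul _)),
    intervalIntegral.integral_sub ((hc _).const_mul _) ((hc _).const_mul _),
    intervalIntegral.integral_const_mul, intervalIntegral.integral_const_mul,
    intervalIntegral.integral_const_mul] at hint
  have hρ' : ρ ^ 2 / ρ ^ 2 = 1 := div_self (by positivity)
  rw [hρ'] at hint
  simp only [sub_self, ne_eq, Nat.succ_ne_zero, not_false_eq_true, zero_pow, mul_zero,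
    zero_mul, sub_zero] at hint
  unfold KK
  simp only [Nat.add_sub_cancel]
  linarith

/-- IVAL. -/
theorem taskIVAL : TaskIVAL := by
  intro i m ρ hi hρ
  have hi0 : (i : ℝ) ≠ 0 := by positivity
  constructor
  · rw [II_eq i 0 ρ hi hρ, KK_zero i ρ hi]
    field_simp
  · rw [II_eq i (m + 1) ρ hi hρ, II_eq i m ρ hi hρ]
    have := KK_succ i m ρ hi hρ
    linear_combination (i * vb i) * this

end Pool.Agent.H823R3.CP
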